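import Pool.Agent.Lib.MP_427d8c_co.Proof

/-!
# Spectral minima of orbit polytopes need not be equilateral
-/

set_option autoImplicit false

namespace Pool.Agent.Results.MP_427d8c_co.Equilateral

open Pool.Agent.Lib.MP_427d8c_co

/-- **Counterexample.** There is a finite group `Γ ⊂ O(4)`, irreducible on `ℝ^4`, that satisfies
hypotheses (i) and (ii) for every radius `r`, such that for every point `w` of the sphere of
radius `r` the orbit polytope `Q_w` is `4`-dimensional, `λ₁` attains its minimum over the stratum
of `w` at `w`, but `Q_w` is not equilateral. -/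
theorem result : ∃ Γ : SubgroupO 4, (maps Γ).Finite ∧ IsIrreducibleAction Γ ∧
    ∀ r : ℝ, 0 < r → HypI Γ r ∧ HypII Γ r ∧
      ∀ w : E 4, ‖w‖ = r → w ∈ regularPoints Γ r ∧ IsMinimiser Γ (stratum Γ r w) w ∧
        ¬ IsEquilateral (orbitPolytope Γ w) := main

end Pool.Agent.Results.MP_427d8c_co.Equilateral
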